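import Mathlib
import Pool.Agent.Results.MP_04ec84_gt.MidpointDiameter
import Pool.Agent.Y369.MD.Plane

set_option autoImplicit false

namespace Pool.Agent.Results.MP_04ec84_gt.DividingPoints

open Metric Set
open Pool.Agent.Results.MP_04ec84_gt.MidpointDiameter (ConstantWidthOne exists_constantWidth
  dist_le_one midpointSet)

/-- The set of the points which divide the diametral chords (the chords of length `1`) of `K` in
the ratio `lam : 1 - lam`; for `lam = 1 / 2` this is the set of their midpoints. -/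
def dividingSet {d : ℕ} (lam : ℝ) (K : Set (EuclideanSpace ℝ (Fin d))) :
    Set (EuclideanSpace ℝ (Fin d)) :=
  {m | ∃ x ∈ K, ∃ y ∈ K, dist x y = 1 ∧ m = (1 - lam) • x + lam • y}

/-- The maximal diameter: `max lam (1 - lam)` in the plane and `√(lam ^ 2 + (1 - lam) ^ 2)` in
dimension at least three. -/
noncomputable def maxDiam (d : ℕ) (lam : ℝ) : ℝ :=
  if d = 2 then max lam (1 - lam) else Real.sqrt (lam ^ 2 + (1 - lam) ^ 2)

/-! ### Vectors -/

section vectors

variable {E : Type*} [NormedAddCommGroup E] [InnerProductSpace ℝ E]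

/-- A vector of norm at most one with inner product at least one with a unit vector. -/
lemma eq_of_inner {u w : E} (hu : ‖u‖ = 1) (hw : ‖w‖ ≤ 1) (h : 1 ≤ inner ℝ u w) : w = u := by
  have h1 : ‖w - u‖ ^ 2 = ‖w‖ ^ 2 - 2 * inner ℝ w u + ‖u‖ ^ 2 := norm_sub_sq_real w u
  rw [real_inner_comm, hu] at h1
  have h2 : ‖w‖ ^ 2 ≤ 1 := by nlinarith [norm_nonneg w]
  have h3 : ‖w - u‖ ^ 2 ≤ 0 := by linarith
  have h4 : ‖w - u‖ = 0 := by
    have := sq_nonneg ‖w - u‖
    exact pow_eq_zero_iff (two_ne_zero) |>.1 (le_antisymm h3 this)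
  exact sub_eq_zero.1 (norm_eq_zero.1 h4)

/-- Distance of two dividing points. -/
lemma dividing_identity (x y x' y' : E) (l : ℝ) :
    ‖((1 - l) • x + l • y) - ((1 - l) • x' + l • y')‖ ^ 2 =
      (1 - l) ^ 2 * ‖x - x'‖ ^ 2 + l ^ 2 * ‖y - y'‖ ^ 2 +
        l * (1 - l) * (‖x - y'‖ ^ 2 + ‖y - x'‖ ^ 2)
        - l * (1 - l) * (‖x - y‖ ^ 2 + ‖x' - y'‖ ^ 2) := by
  simp only [← real_inner_self_eq_norm_sq, inner_sub_left, inner_sub_right, inner_add_left,
    inner_add_right, real_inner_smul_left, real_inner_smul_right]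
  rw [real_inner_comm x y, real_inner_comm x x', real_inner_comm x y', real_inner_comm y x',
    real_inner_comm y y', real_inner_comm x' y']
  ring

end vectors

/-! ### Bodies of constant width -/

section bodies

variable {d : ℕ}

lemma exists_chord {K : Set (EuclideanSpace ℝ (Fin d))} (hK : ConstantWidthOne K)
    {u : EuclideanSpace ℝ (Fin d)} (hu : ‖u‖ = 1) : ∃ x ∈ K, ∃ y ∈ K, x - y = u := by
  have hcomp := hK.2.1
  have hne := hK.1
  have hcont : Continuous fun x : EuclideanSpace ℝ (Fin d) => inner ℝ u x := by fun_prop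
  obtain ⟨p, hpK, hp⟩ := hcomp.exists_isMaxOn hne hcont.continuousOn
  obtain ⟨q, hqK, hq⟩ := hcomp.exists_isMinOn hne hcont.continuousOn
  have hsup : sSup ((fun x : EuclideanSpace ℝ (Fin d) => inner ℝ u x) '' K) = inner ℝ u p :=
    IsGreatest.csSup_eq ⟨⟨p, hpK, rfl⟩, by rintro _ ⟨y, hy, rfl⟩; exact hp hy⟩
  have hinf : sInf ((fun x : EuclideanSpace ℝ (Fin d) => inner ℝ u x) '' K) = inner ℝ u q :=
    IsLeast.csInf_eq ⟨⟨q, hqK, rfl⟩, by rintro _ ⟨y, hy, rfl⟩; exact hq hy⟩
  have hw := hK.2.2.2 u hu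
  rw [hsup, hinf] at hw
  refine ⟨p, hpK, q, hqK, eq_of_inner hu ?_ ?_⟩
  · rw [← dist_eq_norm]; exact dist_le_one hK hpK hqK
  · rw [inner_sub_right]; linarith

lemma constantWidth_of {K : Set (EuclideanSpace ℝ (Fin d))} (hne : K.Nonempty)
    (hc : IsCompact K) (hv : Convex ℝ K) (hd : ∀ x ∈ K, ∀ y ∈ K, dist x y ≤ 1)
    (hch : ∀ u : EuclideanSpace ℝ (Fin d), ‖u‖ = 1 → ∃ x ∈ K, ∃ y ∈ K, x - y = u) :
    ConstantWidthOne K := by
  refine ⟨hne, hc, hv, fun u hu => ?_⟩
  obtain ⟨p, hp, q, hq, hpq⟩ := hch u hu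
  have huu : inner ℝ u u = (1 : ℝ) := by rw [real_inner_self_eq_norm_sq, hu]; norm_num
  have hip : inner ℝ u p - inner ℝ u q = (1 : ℝ) := by rw [← inner_sub_right, hpq, huu]
  have hle : ∀ x ∈ K, ∀ y ∈ K, inner ℝ u x - inner ℝ u y ≤ (1 : ℝ) := by
    intro x hx y hy
    rw [← inner_sub_right]
    have h1 := real_inner_le_norm u (x - y)
    have h2 := hd x hx y hy
    rw [dist_eq_norm] at h2
    rw [hu, one_mul] at h1
    linarith
  have hsup : sSup ((fun x : EuclideanSpace ℝ (Fin d) => inner ℝ u x) '' K) = inner ℝ u p := by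
    refine IsGreatest.csSup_eq ⟨⟨p, hp, rfl⟩, ?_⟩
    rintro _ ⟨y, hy, rfl⟩
    have := hle y hy q hq
    simp only
    linarith
  have hinf : sInf ((fun x : EuclideanSpace ℝ (Fin d) => inner ℝ u x) '' K) = inner ℝ u q := by
    refine IsLeast.csInf_eq ⟨⟨q, hq, rfl⟩, ?_⟩
    rintro _ ⟨y, hy, rfl⟩
    have := hle p hp y hy
    simp only
    linarith
  rw [hsup, hinf]; exact hip

lemma dividingSet_subset {l : ℝ} (h0 : 0 ≤ l) (h1 : l ≤ 1)
    {K : Set (EuclideanSpace ℝ (Fin d))} (hv : Convex ℝ K) : dividingSet l K ⊆ K := by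
  rintro _ ⟨x, hx, y, hy, -, rfl⟩
  exact hv hx hy (by linarith) h0 (by ring)

lemma dividingSet_symm (l : ℝ) (K : Set (EuclideanSpace ℝ (Fin d))) :
    dividingSet (1 - l) K = dividingSet l K := by
  ext m
  constructor
  · rintro ⟨x, hx, y, hy, hxy, rfl⟩
    exact ⟨y, hy, x, hx, by rw [dist_comm]; exact hxy, by rw [add_comm]; simp⟩
  · rintro ⟨x, hx, y, hy, hxy, rfl⟩
    exact ⟨y, hy, x, hx, by rw [dist_comm]; exact hxy, by rw [add_comm]; simp⟩

lemma maxDiam_symm (l : ℝ) : maxDiam d (1 - l) = maxDiam d l := by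
  unfold maxDiam
  split_ifs
  · rw [max_comm]; simp
  · congr 1; ring

lemma isCompact_dividingSet (l : ℝ) {K : Set (EuclideanSpace ℝ (Fin d))} (hc : IsCompact K) :
    IsCompact (dividingSet l K) := by
  have h : dividingSet l K = (fun p : EuclideanSpace ℝ (Fin d) × EuclideanSpace ℝ (Fin d) =>
      (1 - l) • p.1 + l • p.2) '' ((K ×ˢ K) ∩ {p | dist p.1 p.2 = 1}) := by
    ext m
    constructor
    · rintro ⟨x, hx, y, hy, hxy, rfl⟩
      exact ⟨(x, y), ⟨⟨hx, hy⟩, hxy⟩, rfl⟩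
    · rintro ⟨⟨x, y⟩, ⟨⟨hx, hy⟩, hxy⟩, rfl⟩
      exact ⟨x, hx, y, hy, hxy, rfl⟩
  rw [h]
  refine IsCompact.image ?_ (by fun_prop)
  refine (hc.prod hc).inter_right ?_
  exact isClosed_eq (by fun_prop) continuous_const

lemma dividingSet_nonempty (hd : 1 ≤ d) (l : ℝ) {K : Set (EuclideanSpace ℝ (Fin d))}
    (hK : ConstantWidthOne K) : (dividingSet l K).Nonempty := by
  obtain ⟨x, hx, y, hy, hxy⟩ := exists_chord hK (u := EuclideanSpace.single ⟨0, hd⟩ 1) (by simp)
  exact ⟨_, x, hx, y, hy, by rw [dist_eq_norm, hxy]; simp, rfl⟩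

/-- The diameter is attained. -/
lemma exists_dist_eq_diam (hd : 1 ≤ d) (l : ℝ) {K : Set (EuclideanSpace ℝ (Fin d))}
    (hK : ConstantWidthOne K) :
    ∃ p ∈ dividingSet l K, ∃ q ∈ dividingSet l K, dist p q = diam (dividingSet l K) := by
  have hc := isCompact_dividingSet l hK.2.1
  have hne := dividingSet_nonempty hd l hK
  have hcont : Continuous fun p : EuclideanSpace ℝ (Fin d) × EuclideanSpace ℝ (Fin d) =>
    dist p.1 p.2 := by fun_prop
  obtain ⟨w, hw, hmax⟩ := (hc.prod hc).exists_isMaxOn (hne.prod hne) hcont.continuousOn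
  have hw1 := (Set.mem_prod.1 hw).1
  have hw2 := (Set.mem_prod.1 hw).2
  refine ⟨w.1, hw1, w.2, hw2, le_antisymm (dist_le_diam_of_mem hc.isBounded hw1 hw2) ?_⟩
  refine diam_le_of_forall_dist_le dist_nonneg fun a ha b hb => ?_
  have h := isMaxOn_iff.1 hmax (a, b) (Set.mk_mem_prod ha hb)
  exact h

/-- The lower bound `|1 - 2 lam|`. -/
lemma lower_bound (hd : 1 ≤ d) {l : ℝ} {K : Set (EuclideanSpace ℝ (Fin d))}
    (hK : ConstantWidthOne K) : |1 - 2 * l| ≤ diam (dividingSet l K) := by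
  obtain ⟨x, hx, y, hy, hxy⟩ := exists_chord hK (u := EuclideanSpace.single ⟨0, hd⟩ 1) (by simp)
  have h1 : dist x y = 1 := by rw [dist_eq_norm, hxy]; simp
  have h := dist_le_diam_of_mem (isCompact_dividingSet l hK.2.1).isBounded
    (show (1 - l) • x + l • y ∈ dividingSet l K from ⟨x, hx, y, hy, h1, rfl⟩)
    (show (1 - l) • y + l • x ∈ dividingSet l K from
      ⟨y, hy, x, hx, by rw [dist_comm]; exact h1, rfl⟩)
  have e : ((1 - l) • x + l • y) - ((1 - l) • y + l • x) = (1 - 2 * l) • (x - y) := by module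
  rw [dist_eq_norm] at h1
  rw [dist_eq_norm, e, norm_smul, h1, mul_one, Real.norm_eq_abs] at h
  exact h

/-- The upper bound valid in every dimension. -/
lemma upper_general {l : ℝ} (h0 : 0 ≤ l) (h1 : l ≤ 1) {X : Set (EuclideanSpace ℝ (Fin d))}
    (hX : ∀ x ∈ X, ∀ y ∈ X, dist x y ≤ 1) {p q : EuclideanSpace ℝ (Fin d)}
    (hp : p ∈ dividingSet l X) (hq : q ∈ dividingSet l X) :
    dist p q ≤ Real.sqrt (l ^ 2 + (1 - l) ^ 2) := by
  obtain ⟨x, hx, y, hy, hxy, rfl⟩ := hp
  obtain ⟨x', hx', y', hy', hxy', rfl⟩ := hq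
  have h := dividing_identity x y x' y' l
  have sq1 : ∀ a b : EuclideanSpace ℝ (Fin d), a ∈ X → b ∈ X → ‖a - b‖ ^ 2 ≤ 1 := by
    intro a b ha hb
    have := hX a ha b hb
    rw [dist_eq_norm] at this
    nlinarith [norm_nonneg (a - b)]
  have a1 := sq1 _ _ hx hx'
  have a2 := sq1 _ _ hx hy'
  have a3 := sq1 _ _ hy hx'
  have a4 := sq1 _ _ hy hy'
  rw [dist_eq_norm] at hxy hxy' ⊢
  rw [hxy, hxy'] at h
  apply Real.le_sqrt_of_sq_le
  rw [h]
  have b1 : (1 - l) ^ 2 * ‖x - x'‖ ^ 2 ≤ (1 - l) ^ 2 * 1 :=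
    mul_le_mul_of_nonneg_left a1 (sq_nonneg _)
  have b4 : l ^ 2 * ‖y - y'‖ ^ 2 ≤ l ^ 2 * 1 := mul_le_mul_of_nonneg_left a4 (sq_nonneg _)
  have b2 : l * (1 - l) * (‖x - y'‖ ^ 2 + ‖y - x'‖ ^ 2) ≤ l * (1 - l) * (1 + 1) :=
    mul_le_mul_of_nonneg_left (add_le_add a2 a3) (mul_nonneg h0 (by linarith))
  nlinarith

/-- Equality in the upper bound valid in every dimension. -/
lemma equality_general {l : ℝ} (h0 : 0 < l) (h1 : l < 1) {X : Set (EuclideanSpace ℝ (Fin d))}
    (hX : ∀ x ∈ X, ∀ y ∈ X, dist x y ≤ 1) {p q : EuclideanSpace ℝ (Fin d)}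
    (hp : p ∈ dividingSet l X) (hq : q ∈ dividingSet l X)
    (hpq : dist p q = Real.sqrt (l ^ 2 + (1 - l) ^ 2)) :
    ∃ a ∈ X, ∃ b ∈ X, ∃ c ∈ X, ∃ e ∈ X, dist a b = 1 ∧ dist a c = 1 ∧ dist a e = 1 ∧
      dist b c = 1 ∧ dist b e = 1 ∧ dist c e = 1 := by
  obtain ⟨x, hx, y, hy, hxy, rfl⟩ := hp
  obtain ⟨x', hx', y', hy', hxy', rfl⟩ := hq
  have h := dividing_identity x y x' y' l
  have sq1 : ∀ a b : EuclideanSpace ℝ (Fin d), a ∈ X → b ∈ X → ‖a - b‖ ^ 2 ≤ 1 := by
    intro a b ha hb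
    have := hX a ha b hb
    rw [dist_eq_norm] at this
    nlinarith [norm_nonneg (a - b)]
  have a1 := sq1 _ _ hx hx'
  have a2 := sq1 _ _ hx hy'
  have a3 := sq1 _ _ hy hx'
  have a4 := sq1 _ _ hy hy'
  have hs : ‖((1 - l) • x + l • y) - ((1 - l) • x' + l • y')‖ ^ 2 = l ^ 2 + (1 - l) ^ 2 := by
    rw [← dist_eq_norm, hpq, Real.sq_sqrt (by positivity)]
  rw [dist_eq_norm] at hxy hxy'
  rw [hs, hxy, hxy'] at h
  have c1 : 0 < (1 - l) ^ 2 := by have : 0 < 1 - l := by linarith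
                                  positivity
  have c2 : 0 < l ^ 2 := by positivity
  have c3 : 0 < l * (1 - l) := mul_pos h0 (by linarith)
  have b1 : (1 - l) ^ 2 * ‖x - x'‖ ^ 2 ≤ (1 - l) ^ 2 * 1 := mul_le_mul_of_nonneg_left a1 c1.le
  have b4 : l ^ 2 * ‖y - y'‖ ^ 2 ≤ l ^ 2 * 1 := mul_le_mul_of_nonneg_left a4 c2.le
  have b2 : l * (1 - l) * ‖x - y'‖ ^ 2 ≤ l * (1 - l) * 1 := mul_le_mul_of_nonneg_left a2 c3.le
  have b3 : l * (1 - l) * ‖y - x'‖ ^ 2 ≤ l * (1 - l) * 1 := mul_le_mul_of_nonneg_left a3 c3.le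
  have e1 : ‖x - x'‖ ^ 2 = 1 := mul_left_cancel₀ c1.ne' (by nlinarith)
  have e4 : ‖y - y'‖ ^ 2 = 1 := mul_left_cancel₀ c2.ne' (by nlinarith)
  have e2 : ‖x - y'‖ ^ 2 = 1 := mul_left_cancel₀ c3.ne' (by nlinarith)
  have e3 : ‖y - x'‖ ^ 2 = 1 := mul_left_cancel₀ c3.ne' (by nlinarith)
  have root : ∀ a b : EuclideanSpace ℝ (Fin d), ‖a - b‖ ^ 2 = 1 → dist a b = 1 := by
    intro a b hab
    rw [dist_eq_norm]
    exact (pow_eq_one_iff_of_nonneg (norm_nonneg _) two_ne_zero).1 hab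
  refine ⟨x, hx, y, hy, x', hx', y', hy', ?_, root _ _ e1, root _ _ e2, root _ _ e3, root _ _ e4,
    ?_⟩
  · rw [dist_eq_norm]; exact hxy
  · rw [dist_eq_norm]; exact hxy'

end bodies

/-! ### The plane -/

section plane

open Pool.Agent.Y369.MD.Plane

/-- Two unit vectors of the plane which are not parallel span it. -/
lemma plane_solve {u v : EuclideanSpace ℝ (Fin 2)} (hu : ‖u‖ = 1) (hv : ‖v‖ = 1)
    (h1 : -1 < inner ℝ u v) (h2 : inner ℝ u v < 1) (a : EuclideanSpace ℝ (Fin 2)) :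
    ∃ A B : ℝ, a = A • u - B • v := by
  have hu' : u 0 ^ 2 + u 1 ^ 2 = 1 := by
    have := EuclideanSpace.real_norm_sq_eq u
    rw [hu, Fin.sum_univ_two] at this
    linarith
  have hv' : v 0 ^ 2 + v 1 ^ 2 = 1 := by
    have := EuclideanSpace.real_norm_sq_eq v
    rw [hv, Fin.sum_univ_two] at this
    linarith
  have hk : inner ℝ u v = u 0 * v 0 + u 1 * v 1 := by
    rw [PiLp.inner_apply, Fin.sum_univ_two]
    simp [mul_comm]
  rw [hk] at h1 h2
  set D : ℝ := u 0 * v 1 - u 1 * v 0 with hD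
  have hD2 : D ^ 2 = 1 - (u 0 * v 0 + u 1 * v 1) ^ 2 := by
    rw [hD]
    have : (u 0 ^ 2 + u 1 ^ 2) * (v 0 ^ 2 + v 1 ^ 2) = 1 := by rw [hu', hv']; norm_num
    linarith
  have hD0 : D ≠ 0 := by
    intro h
    rw [h] at hD2
    nlinarith
  refine ⟨(a 0 * v 1 - a 1 * v 0) / D, (a 0 * u 1 - a 1 * u 0) / D, ?_⟩
  ext i
  fin_cases i
  · simp only [Fin.zero_eta, PiLp.sub_apply, PiLp.smul_apply, smul_eq_mul]
    rw [div_mul_eq_mul_div, div_mul_eq_mul_div, ← sub_div, eq_div_iff hD0, hD]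
    ring
  · simp only [Fin.mk_one, PiLp.sub_apply, PiLp.smul_apply, smul_eq_mul]
    rw [div_mul_eq_mul_div, div_mul_eq_mul_div, ← sub_div, eq_div_iff hD0, hD]
    ring

section comb

variable {E : Type*} [NormedAddCommGroup E] [InnerProductSpace ℝ E]

lemma norm_sub_comb {u v : E} (hu : ‖u‖ = 1) (hv : ‖v‖ = 1) (A B : ℝ) :
    ‖A • u - B • v‖ ^ 2 = A ^ 2 + B ^ 2 - 2 * inner ℝ u v * A * B := by
  rw [norm_sub_sq_real, norm_smul, norm_smul, hu, hv, real_inner_smul_left,
    real_inner_smul_right, Real.norm_eq_abs, Real.norm_eq_abs, mul_one, mul_one, sq_abs, sq_abs]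
  ring

end comb

/-- Two diametral chords of a planar set of diameter one cross (or coincide). -/
lemma plane_config {x y x' y' : EuclideanSpace ℝ (Fin 2)} (hxy : dist x y = 1)
    (hxy' : dist x' y' = 1) (h1 : dist x x' ≤ 1) (h2 : dist y y' ≤ 1) (h3 : dist x y' ≤ 1)
    (h4 : dist y x' ≤ 1) :
    (∃ A B k : ℝ, 0 ≤ A ∧ A ≤ 1 ∧ 0 ≤ B ∧ B ≤ 1 ∧ inner ℝ (x - y) (x' - y') = k ∧
      x - x' = A • (x - y) - B • (x' - y') ∧
      A ^ 2 + B ^ 2 - 2 * k * A * B ≤ 1 ∧
      (1 - A) ^ 2 + (1 - B) ^ 2 - 2 * k * (1 - A) * (1 - B) ≤ 1 ∧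
      A ^ 2 + (1 - B) ^ 2 + 2 * k * A * (1 - B) ≤ 1 ∧
      (1 - A) ^ 2 + B ^ 2 + 2 * k * (1 - A) * B ≤ 1) ∨
    (x = x' ∧ y = y') ∨ (x = y' ∧ y = x') := by
  rw [dist_eq_norm] at *
  have s1 : ‖x - x'‖ ^ 2 ≤ 1 := by nlinarith [norm_nonneg (x - x')]
  have s2 : ‖y - y'‖ ^ 2 ≤ 1 := by nlinarith [norm_nonneg (y - y')]
  have s3 : ‖x - y'‖ ^ 2 ≤ 1 := by nlinarith [norm_nonneg (x - y')]
  have s4 : ‖y - x'‖ ^ 2 ≤ 1 := by nlinarith [norm_nonneg (y - x')]
  have hle := abs_le.1 (abs_real_inner_le_norm (x - y) (x' - y'))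
  rw [hxy, hxy', mul_one] at hle
  rcases hle.1.lt_or_eq with hk1 | hk1
  · rcases hle.2.lt_or_eq with hk2 | hk2
    · left
      obtain ⟨A, B, hAB⟩ := plane_solve hxy hxy' hk1 hk2 (x - x')
      have e1 := norm_sub_comb hxy hxy' A B
      have e2 := norm_sub_comb hxy hxy' (A - 1) (B - 1)
      have e3 := norm_sub_comb hxy hxy' A (B - 1)
      have e4 := norm_sub_comb hxy hxy' (A - 1) B
      have f2 : (A - 1) • (x - y) - (B - 1) • (x' - y') = y - y' := by
        have : (A - 1) • (x - y) - (B - 1) • (x' - y') =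
          (A • (x - y) - B • (x' - y')) - (x - y) + (x' - y') := by module
        rw [this, ← hAB]; abel
      have f3 : A • (x - y) - (B - 1) • (x' - y') = x - y' := by
        have : A • (x - y) - (B - 1) • (x' - y') =
          (A • (x - y) - B • (x' - y')) + (x' - y') := by module
        rw [this, ← hAB]; abel
      have f4 : (A - 1) • (x - y) - B • (x' - y') = y - x' := by
        have : (A - 1) • (x - y) - B • (x' - y') =
          (A • (x - y) - B • (x' - y')) - (x - y) := by module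
        rw [this, ← hAB]; abel
      rw [← hAB] at e1
      rw [f2] at e2
      rw [f3] at e3
      rw [f4] at e4
      rw [e1] at s1
      rw [e2] at s2
      rw [e3] at s3
      rw [e4] at s4
      have g2 : (1 - A) ^ 2 + (1 - B) ^ 2 - 2 * inner ℝ (x - y) (x' - y') * (1 - A) * (1 - B)
        ≤ 1 := by linarith
      have g3 : A ^ 2 + (1 - B) ^ 2 + 2 * inner ℝ (x - y) (x' - y') * A * (1 - B) ≤ 1 := by
        linarith
      have g4 : (1 - A) ^ 2 + B ^ 2 + 2 * inner ℝ (x - y) (x' - y') * (1 - A) * B ≤ 1 := by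
        linarith
      obtain ⟨c1, c2, c3, c4⟩ := cross hk1 hk2 s1 g2 g3 g4
      exact ⟨A, B, _, c1, c2, c3, c4, rfl, hAB, s1, g2, g3, g4⟩
    · right; left
      have huv : x' - y' = x - y := eq_of_inner hxy hxy'.le hk2.ge
      have e3 : x - y' = (x - x') + (x - y) := by rw [← huv]; abel
      have e4 : y - x' = (x - x') - (x - y) := by abel
      have hp : ‖x - x' + (x - y)‖ ^ 2 + ‖x - x' - (x - y)‖ ^ 2 =
          2 * (‖x - x'‖ ^ 2 + ‖x - y‖ ^ 2) := by
        have := parallelogram_law_with_norm ℝ (x - x') (x - y)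
        linarith [sq ‖x - x' + (x - y)‖, sq ‖x - x' - (x - y)‖, sq ‖x - x'‖, sq ‖x - y‖]
      rw [e3] at s3
      rw [e4] at s4
      rw [hxy] at hp
      have h0 : ‖x - x'‖ ^ 2 = 0 := le_antisymm (by linarith) (sq_nonneg _)
      have hxx : x = x' := sub_eq_zero.1 (norm_eq_zero.1 (pow_eq_zero_iff two_ne_zero |>.1 h0))
      refine ⟨hxx, ?_⟩
      rw [hxx] at huv
      exact (sub_right_inj.1 huv).symm
  · right; right
    have huv : y' - x' = x - y := by
      apply eq_of_inner hxy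
      · rw [norm_sub_rev]; exact hxy'.le
      · rw [← neg_sub x' y', inner_neg_right, ← hk1]; norm_num
    have e1 : x - x' = (y - x') + (x - y) := by abel
    have e2 : y - y' = (y - x') - (x - y) := by rw [← huv]; abel
    have hp : ‖y - x' + (x - y)‖ ^ 2 + ‖y - x' - (x - y)‖ ^ 2 =
        2 * (‖y - x'‖ ^ 2 + ‖x - y‖ ^ 2) := by
      have := parallelogram_law_with_norm ℝ (y - x') (x - y)
      linarith [sq ‖y - x' + (x - y)‖, sq ‖y - x' - (x - y)‖, sq ‖y - x'‖, sq ‖x - y‖]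
    rw [e1] at s1
    rw [e2] at s2
    rw [hxy] at hp
    have h0 : ‖y - x'‖ ^ 2 = 0 := le_antisymm (by linarith) (sq_nonneg _)
    have hyx : y = x' := sub_eq_zero.1 (norm_eq_zero.1 (pow_eq_zero_iff two_ne_zero |>.1 h0))
    refine ⟨?_, hyx⟩
    rw [hyx] at huv
    exact (sub_left_inj.1 huv).symm

/-- The planar bound for `l ≤ 1 / 2`. -/
lemma upper_plane_half {l : ℝ} (h0 : 0 ≤ l) (hl : l ≤ 1 / 2)
    {X : Set (EuclideanSpace ℝ (Fin 2))} (hX : ∀ x ∈ X, ∀ y ∈ X, dist x y ≤ 1)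
    {p q : EuclideanSpace ℝ (Fin 2)} (hp : p ∈ dividingSet l X) (hq : q ∈ dividingSet l X) :
    dist p q ≤ 1 - l := by
  obtain ⟨x, hx, y, hy, hxy, rfl⟩ := hp
  obtain ⟨x', hx', y', hy', hxy', rfl⟩ := hq
  rcases plane_config hxy hxy' (hX x hx x' hx') (hX y hy y' hy') (hX x hx y' hy')
    (hX y hy x' hx') with ⟨A, B, k, hA0, hA1, hB0, hB1, hk, hAB, c1, c2, c3, c4⟩ | ⟨ex, ey⟩ |
    ⟨ex, ey⟩
  · have e : ((1 - l) • x + l • y) - ((1 - l) • x' + l • y') =
        (A - l) • (x - y) - (B - l) • (x' - y') := by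
      have : ((1 - l) • x + l • y) - ((1 - l) • x' + l • y') =
        (x - x') - l • (x - y) + l • (x' - y') := by module
      rw [this, hAB]; module
    rw [dist_eq_norm] at hxy hxy'
    have hn := norm_sub_comb hxy hxy' (A - l) (B - l)
    rw [hk] at hn
    have hle := plane_le h0 hl hA0 hA1 hB0 hB1 c1 c2 c3 c4
    rw [dist_eq_norm, e]
    rw [← hn] at hle
    exact (abs_le_of_sq_le_sq' hle (by linarith)).2
  · rw [ex, ey, dist_self]; linarith
  · rw [ex, ey]
    have e : ((1 - l) • y' + l • x') - ((1 - l) • x' + l • y') = (2 * l - 1) • (x' - y') := by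
      module
    rw [dist_eq_norm, e, norm_smul, ← dist_eq_norm x' y', hxy', mul_one, Real.norm_eq_abs, abs_le]
    constructor <;> linarith

/-- Equality in the planar bound for `0 < l ≤ 1 / 2`. -/
lemma equality_plane_half {l : ℝ} (h0 : 0 < l) (hl : l ≤ 1 / 2)
    {X : Set (EuclideanSpace ℝ (Fin 2))} (hX : ∀ x ∈ X, ∀ y ∈ X, dist x y ≤ 1)
    {p q : EuclideanSpace ℝ (Fin 2)} (hp : p ∈ dividingSet l X) (hq : q ∈ dividingSet l X)
    (hpq : dist p q = 1 - l) :
    ∃ a ∈ X, ∃ b ∈ X, ∃ c ∈ X, dist a b = 1 ∧ dist b c = 1 ∧ dist a c = 1 := by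
  obtain ⟨x, hx, y, hy, hxy, rfl⟩ := hp
  obtain ⟨x', hx', y', hy', hxy', rfl⟩ := hq
  rcases plane_config hxy hxy' (hX x hx x' hx') (hX y hy y' hy') (hX x hx y' hy')
    (hX y hy x' hx') with ⟨A, B, k, hA0, hA1, hB0, hB1, hk, hAB, c1, c2, c3, c4⟩ | ⟨ex, ey⟩ |
    ⟨ex, ey⟩
  · have e : ((1 - l) • x + l • y) - ((1 - l) • x' + l • y') =
        (A - l) • (x - y) - (B - l) • (x' - y') := by
      have : ((1 - l) • x + l • y) - ((1 - l) • x' + l • y') =
        (x - x') - l • (x - y) + l • (x' - y') := by module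
      rw [this, hAB]; module
    have nxy := hxy
    have nxy' := hxy'
    rw [dist_eq_norm] at nxy nxy'
    have hn := norm_sub_comb nxy nxy' (A - l) (B - l)
    rw [dist_eq_norm, e] at hpq
    rw [hk, hpq] at hn
    have root : ∀ a b : EuclideanSpace ℝ (Fin 2), ‖a - b‖ ^ 2 = 1 → dist a b = 1 := by
      intro a b hab
      rw [dist_eq_norm]
      exact (pow_eq_one_iff_of_nonneg (norm_nonneg _) two_ne_zero).1 hab
    have m1 := norm_sub_comb nxy nxy' 1 1
    have m2 := norm_sub_comb nxy nxy' 1 (-1)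
    rw [hk] at m1 m2
    rcases plane_eq h0 hl hA0 hA1 hB0 hB1 c1 c2 c3 c4 hn.symm with ⟨rfl, rfl, hk'⟩ |
      ⟨rfl, rfl, hk'⟩ | ⟨rfl, rfl, hk'⟩ | ⟨rfl, rfl, hk'⟩
    · -- y = y'
      refine ⟨x, hx, y, hy, x', hx', hxy, ?_, ?_⟩
      · have : y = y' := by
          have h5 : x - x' = (x - y) - (x' - y') := by rw [hAB]; module
          have h6 : x - x' - ((x - y) - (x' - y')) = y - y' := by abel
          rw [← h5, sub_self] at h6
          exact (sub_eq_zero.1 h6.symm)
        rw [this, dist_comm]; exact hxy'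
      · apply root
        rw [hAB, m1, hk']; norm_num
    · -- x = x'
      have hxx : x = x' := by
        have h5 : x - x' = 0 := by rw [hAB]; module
        exact sub_eq_zero.1 h5
      refine ⟨x, hx, y, hy, y', hy', hxy, ?_, ?_⟩
      · apply root
        have h6 : ‖y - y'‖ ^ 2 = ‖(1 : ℝ) • (x - y) - (1 : ℝ) • (x' - y')‖ ^ 2 := by
          rw [← norm_neg]
          congr 2
          rw [hxx]; module
        rw [h6, m1, hk']; norm_num
      · rw [hxx]; exact hxy'
    · -- y = x'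
      have hyx : y = x' := by
        have h5 : x - x' = x - y := by rw [hAB]; module
        exact (sub_right_inj.1 h5).symm
      refine ⟨x, hx, y, hy, y', hy', hxy, ?_, ?_⟩
      · rw [hyx]; exact hxy'
      · apply root
        have h6 : x - y' = (1 : ℝ) • (x - y) - (-1 : ℝ) • (x' - y') := by rw [hyx]; module
        rw [h6, m2, hk']; norm_num
    · -- x = y'
      have hxy2 : x = y' := by
        have h5 : x - x' = y' - x' := by rw [hAB]; module
        exact sub_left_inj.1 h5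
      refine ⟨x, hx, y, hy, x', hx', hxy, ?_, ?_⟩
      · apply root
        have h6 : ‖y - x'‖ ^ 2 = ‖(1 : ℝ) • (x - y) - (-1 : ℝ) • (x' - y')‖ ^ 2 := by
          rw [← norm_neg]
          congr 2
          rw [hxy2]; module
        rw [h6, m2, hk']; norm_num
      · rw [hxy2, dist_comm]; exact hxy'
  · exfalso
    rw [ex, ey, dist_self] at hpq; linarith
  · exfalso
    rw [ex, ey] at hpq
    have e : ((1 - l) • y' + l • x') - ((1 - l) • x' + l • y') = (2 * l - 1) • (x' - y') := by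
      module
    rw [dist_eq_norm, e, norm_smul, ← dist_eq_norm x' y', hxy', mul_one, Real.norm_eq_abs,
      abs_of_nonpos (by linarith)] at hpq
    linarith

end plane

/-! ### Completeness and Reuleaux triangles -/

section complete

variable {d : ℕ}

/-- Separation of a point from a closed convex set by a unit vector. -/
lemma separate {K : Set (EuclideanSpace ℝ (Fin d))} (hne : K.Nonempty) (hc : IsClosed K)
    (hv : Convex ℝ K) {z : EuclideanSpace ℝ (Fin d)} (hz : z ∉ K) :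
    ∃ u : EuclideanSpace ℝ (Fin d), ‖u‖ = 1 ∧ ∀ x ∈ K, inner ℝ u x < inner ℝ u z := by
  obtain ⟨p, hp, hmin⟩ := exists_norm_eq_iInf_of_complete_convex hne hc.isComplete hv z
  have h := (norm_eq_iInf_iff_real_inner_le_zero hv hp).1 hmin
  have hzp : z - p ≠ 0 := by
    intro h0
    rw [sub_eq_zero.1 h0] at hz
    exact hz hp
  have hpos : 0 < ‖z - p‖ := norm_pos_iff.2 hzp
  refine ⟨(‖z - p‖)⁻¹ • (z - p), ?_, ?_⟩
  · rw [norm_smul, norm_inv, norm_norm, inv_mul_cancel₀ hpos.ne']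
  · intro x hx
    rw [real_inner_smul_left, real_inner_smul_left]
    apply mul_lt_mul_of_pos_left _ (inv_pos.2 hpos)
    have h1 := h x hx
    rw [inner_sub_right] at h1
    have h2 : inner ℝ (z - p) (z - p) = ‖z - p‖ ^ 2 := real_inner_self_eq_norm_sq _
    rw [inner_sub_right] at h2
    have : 0 < ‖z - p‖ ^ 2 := by positivity
    linarith

/-- A body of constant width is complete: it is not contained in a larger set of the same
diameter. -/
lemma complete {K L : Set (EuclideanSpace ℝ (Fin d))} (hK : ConstantWidthOne K) (hKL : K ⊆ L)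
    (hL : ∀ x ∈ L, ∀ y ∈ L, dist x y ≤ 1) : L = K := by
  refine Subset.antisymm (fun z hz => ?_) hKL
  by_contra hzK
  obtain ⟨u, hu, hsep⟩ := separate hK.1 hK.2.1.isClosed hK.2.2.1 hzK
  obtain ⟨x, hx, y, hy, hxy⟩ := exists_chord hK hu
  have h1 := hsep x hx
  have h2 : inner ℝ u x - inner ℝ u y = (1 : ℝ) := by
    rw [← inner_sub_right, hxy, real_inner_self_eq_norm_sq, hu]; norm_num
  have h3 := real_inner_le_norm u (z - y)
  have h4 := hL z hz y (hKL hy)
  rw [dist_eq_norm] at h4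
  rw [hu, one_mul, inner_sub_right] at h3
  linarith

end complete

section reuleaux

variable {E : Type*} [NormedAddCommGroup E] [InnerProductSpace ℝ E]

lemma inner_nonpos_of_ball {p q z : E} (hpq : ‖p - q‖ = 1) (hz : ‖z - q‖ ≤ 1) :
    inner ℝ (p - q) (z - p) ≤ (0 : ℝ) := by
  have h1 := real_inner_le_norm (p - q) (z - q)
  rw [hpq, one_mul] at h1
  have h2 : z - p = (z - q) - (p - q) := by abel
  rw [h2, inner_sub_right, real_inner_self_eq_norm_sq, hpq]
  linarith

lemma cone_case {p q r z w : E} (hpq : ‖p - q‖ = 1) (hpr : ‖p - r‖ = 1) (hzq : ‖z - q‖ ≤ 1)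
    (hzr : ‖z - r‖ ≤ 1) (hwp : ‖w - p‖ ≤ 1) {s t : ℝ} (hs : 0 ≤ s) (ht : 0 ≤ t)
    (h : z - w = s • (p - q) + t • (p - r)) : ‖z - w‖ ≤ 1 := by
  have h1 : inner ℝ (z - w) (z - p) ≤ (0 : ℝ) := by
    rw [h, inner_add_left, real_inner_smul_left, real_inner_smul_left]
    have a1 := mul_nonpos_of_nonneg_of_nonpos hs (inner_nonpos_of_ball hpq hzq)
    have a2 := mul_nonpos_of_nonneg_of_nonpos ht (inner_nonpos_of_ball hpr hzr)
    linarith
  have h2 : inner ℝ (z - w) (p - w) ≤ ‖z - w‖ * 1 := by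
    refine (real_inner_le_norm _ _).trans ?_
    apply mul_le_mul_of_nonneg_left _ (norm_nonneg _)
    rw [norm_sub_rev]; exact hwp
  have h3 : inner ℝ (z - w) (z - w) = ‖z - w‖ ^ 2 := real_inner_self_eq_norm_sq _
  have h4 : (z - w : E) = (z - p) + (p - w) := by abel
  have h5 : inner ℝ (z - w) (z - w) = inner ℝ (z - w) (z - p) + inner ℝ (z - w) (p - w) := by
    rw [← inner_add_right, ← h4]
  by_contra hcon
  push Not at hcon
  nlinarith

/-- All sign patterns. -/
lemma cone_all {a b c z w : E} (hab : ‖a - b‖ = 1) (hac : ‖a - c‖ = 1) (hbc : ‖b - c‖ = 1)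
    (hza : ‖z - a‖ ≤ 1) (hzb : ‖z - b‖ ≤ 1) (hzc : ‖z - c‖ ≤ 1)
    (hwa : ‖w - a‖ ≤ 1) (hwb : ‖w - b‖ ≤ 1) (hwc : ‖w - c‖ ≤ 1) {s t : ℝ}
    (h : z - w = s • (a - b) + t • (a - c)) : ‖z - w‖ ≤ 1 := by
  have hba : ‖b - a‖ = 1 := by rw [norm_sub_rev]; exact hab
  have hca : ‖c - a‖ = 1 := by rw [norm_sub_rev]; exact hac
  have hcb : ‖c - b‖ = 1 := by rw [norm_sub_rev]; exact hbc
  -- the six cones
  have hneg : w - z = (-s) • (a - b) + (-t) • (a - c) := by
    have : w - z = -(z - w) := by abel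
    rw [this, h]; module
  rcases le_total 0 s with hs | hs <;> rcases le_total 0 t with ht | ht
  · exact cone_case hab hac hzb hzc hwa hs ht h
  · rcases le_total 0 (s + t) with hst | hst
    · -- use b: w - z in the cone at b
      rw [norm_sub_rev]
      refine cone_case hba hbc hwa hwc hzb hst (show 0 ≤ -t by linarith) ?_
      rw [hneg]; module
    · refine cone_case hca hcb hza hzb hwc (show 0 ≤ -(s + t) by linarith) hs ?_
      rw [h]; module
  · rcases le_total 0 (s + t) with hst | hst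
    · rw [norm_sub_rev]
      refine cone_case hca hcb hwa hwb hzc hst (show 0 ≤ -s by linarith) ?_
      rw [hneg]; module
    · refine cone_case hba hbc hza hzc hwb (show 0 ≤ -(s + t) by linarith) ht ?_
      rw [h]; module
  · rw [norm_sub_rev]
    exact cone_case hab hac hwb hwc hza (show 0 ≤ -s by linarith) (show 0 ≤ -t by linarith) hneg

end reuleaux

/-- A planar body of constant width containing a regular triangle of side one is the Reuleaux
triangle spanned by it. -/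
lemma reuleaux {K : Set (EuclideanSpace ℝ (Fin 2))} (hK : ConstantWidthOne K)
    {a b c : EuclideanSpace ℝ (Fin 2)} (ha : a ∈ K) (hb : b ∈ K) (hc : c ∈ K)
    (hab : dist a b = 1) (hbc : dist b c = 1) (hac : dist a c = 1) :
    K = closedBall a 1 ∩ closedBall b 1 ∩ closedBall c 1 := by
  symm
  apply complete hK
  · intro z hz
    exact ⟨⟨dist_le_one hK hz ha, dist_le_one hK hz hb⟩, dist_le_one hK hz hc⟩
  · rintro z ⟨⟨hza, hzb⟩, hzc⟩ w ⟨⟨hwa, hwb⟩, hwc⟩
    rw [mem_closedBall, dist_eq_norm] at *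
    have hk : inner ℝ (a - b) (a - c) = (1 / 2 : ℝ) := by
      have h1 := norm_sub_sq_real (a - c) (a - b)
      have h2 : (a - c) - (a - b) = b - c := by abel
      rw [h2, hab, hac, hbc, real_inner_comm] at h1
      linarith
    obtain ⟨s, t, hst⟩ := plane_solve hab hac (by rw [hk]; norm_num) (by rw [hk]; norm_num)
      (z - w)
    refine cone_all hab hac hbc hza hzb hzc hwa hwb hwc (s := s) (t := -t) ?_
    rw [hst]; module

/-! ### Minkowski mixtures of two bodies -/

section mixtures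

variable {d : ℕ}

/-- The mixture `(1 - t) K₀ + t K₁`. -/
def mix (t : ℝ) (K₀ K₁ : Set (EuclideanSpace ℝ (Fin d))) : Set (EuclideanSpace ℝ (Fin d)) :=
  (fun p : EuclideanSpace ℝ (Fin d) × EuclideanSpace ℝ (Fin d) =>
    (1 - t) • p.1 + t • p.2) '' (K₀ ×ˢ K₁)

lemma mem_mix {t : ℝ} {K₀ K₁ : Set (EuclideanSpace ℝ (Fin d))}
    {z : EuclideanSpace ℝ (Fin d)} :
    z ∈ mix t K₀ K₁ ↔ ∃ b ∈ K₀, ∃ a ∈ K₁, z = (1 - t) • b + t • a := by
  constructor
  · rintro ⟨⟨b, a⟩, ⟨hb, ha⟩, rfl⟩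
    exact ⟨b, hb, a, ha, rfl⟩
  · rintro ⟨b, hb, a, ha, rfl⟩
    exact ⟨(b, a), ⟨hb, ha⟩, rfl⟩

lemma mix_zero {K₀ K₁ : Set (EuclideanSpace ℝ (Fin d))} (h : K₁.Nonempty) :
    mix 0 K₀ K₁ = K₀ := by
  obtain ⟨a, ha⟩ := h
  ext z
  rw [mem_mix]
  constructor
  · rintro ⟨b, hb, a, ha, rfl⟩
    simpa using hb
  · intro hz
    exact ⟨z, hz, a, ha, by simp⟩

lemma mix_one {K₀ K₁ : Set (EuclideanSpace ℝ (Fin d))} (h : K₀.Nonempty) :
    mix 1 K₀ K₁ = K₁ := by
  obtain ⟨b, hb⟩ := h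
  ext z
  rw [mem_mix]
  constructor
  · rintro ⟨b, hb, a, ha, rfl⟩
    simpa using ha
  · intro hz
    exact ⟨b, hb, z, hz, by simp⟩

lemma mix_constantWidth {t : ℝ} (h0 : 0 ≤ t) (h1 : t ≤ 1)
    {K₀ K₁ : Set (EuclideanSpace ℝ (Fin d))} (hK₀ : ConstantWidthOne K₀)
    (hK₁ : ConstantWidthOne K₁) : ConstantWidthOne (mix t K₀ K₁) := by
  apply constantWidth_of
  · exact (hK₀.1.prod hK₁.1).image _
  · exact (hK₀.2.1.prod hK₁.2.1).image (by fun_prop)
  · intro z hz w hw α β hα hβ hαβ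
    rw [mem_mix] at hz hw ⊢
    obtain ⟨b, hb, a, ha, rfl⟩ := hz
    obtain ⟨b', hb', a', ha', rfl⟩ := hw
    exact ⟨α • b + β • b', hK₀.2.2.1 hb hb' hα hβ hαβ, α • a + β • a',
      hK₁.2.2.1 ha ha' hα hβ hαβ, by module⟩
  · intro z hz w hw
    rw [mem_mix] at hz hw
    obtain ⟨b, hb, a, ha, rfl⟩ := hz
    obtain ⟨b', hb', a', ha', rfl⟩ := hw
    have e : ((1 - t) • b + t • a) - ((1 - t) • b' + t • a') =
      (1 - t) • (b - b') + t • (a - a') := by module
    have n1 := dist_le_one hK₀ hb hb'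
    have n2 := dist_le_one hK₁ ha ha'
    rw [dist_eq_norm] at n1 n2 ⊢
    rw [e]
    refine (norm_add_le _ _).trans ?_
    rw [norm_smul, norm_smul, Real.norm_of_nonneg h0, Real.norm_of_nonneg (by linarith)]
    nlinarith
  · intro u hu
    obtain ⟨b, hb, b', hb', hbb⟩ := exists_chord hK₀ hu
    obtain ⟨a, ha, a', ha', haa⟩ := exists_chord hK₁ hu
    refine ⟨(1 - t) • b + t • a, mem_mix.2 ⟨b, hb, a, ha, rfl⟩, (1 - t) • b' + t • a',
      mem_mix.2 ⟨b', hb', a', ha', rfl⟩, ?_⟩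
    have e : ((1 - t) • b + t • a) - ((1 - t) • b' + t • a') =
      (1 - t) • (b - b') + t • (a - a') := by module
    rw [e, hbb, haa]; module

/-- The diametral chords of a mixture are the mixtures of parallel diametral chords. -/
lemma mix_chord {t : ℝ} (h0 : 0 ≤ t) (h1 : t ≤ 1)
    {K₀ K₁ : Set (EuclideanSpace ℝ (Fin d))} (hK₀ : ConstantWidthOne K₀)
    (hK₁ : ConstantWidthOne K₁) {x y : EuclideanSpace ℝ (Fin d)} (hx : x ∈ mix t K₀ K₁)
    (hy : y ∈ mix t K₀ K₁) (hxy : dist x y = 1) :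
    ∃ b ∈ K₀, ∃ b' ∈ K₀, ∃ a ∈ K₁, ∃ a' ∈ K₁, b - b' = x - y ∧ a - a' = x - y ∧
      x = (1 - t) • b + t • a ∧ y = (1 - t) • b' + t • a' := by
  rw [dist_eq_norm] at hxy
  rcases h0.lt_or_eq with ht0 | rfl
  · rcases h1.lt_or_eq with ht1 | rfl
    · rw [mem_mix] at hx hy
      obtain ⟨b, hb, a, ha, rfl⟩ := hx
      obtain ⟨b', hb', a', ha', rfl⟩ := hy
      have e : ((1 - t) • b + t • a) - ((1 - t) • b' + t • a') =
        (1 - t) • (b - b') + t • (a - a') := by module
      have n1 := dist_le_one hK₀ hb hb'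
      have n2 := dist_le_one hK₁ ha ha'
      rw [dist_eq_norm] at n1 n2
      set u := ((1 - t) • b + t • a) - ((1 - t) • b' + t • a') with hu
      have huu : inner ℝ u u = (1 : ℝ) := by rw [real_inner_self_eq_norm_sq, hxy]; norm_num
      have i1 := real_inner_le_norm u (b - b')
      have i2 := real_inner_le_norm u (a - a')
      rw [hxy, one_mul] at i1 i2
      have hs : (1 - t) * inner ℝ u (b - b') + t * inner ℝ u (a - a') = (1 : ℝ) := by
        have h5 : inner ℝ u ((1 - t) • (b - b') + t • (a - a')) = (1 : ℝ) := by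
          rw [← e]; exact huu
        rw [inner_add_right, real_inner_smul_right, real_inner_smul_right] at h5
        exact h5
      refine ⟨b, hb, b', hb', a, ha, a', ha', ?_, ?_, rfl, rfl⟩
      · apply eq_of_inner hxy n1
        nlinarith
      · apply eq_of_inner hxy n2
        nlinarith
    · rw [mix_one hK₀.1] at hx hy
      obtain ⟨b, hb, b', hb', hbb⟩ := exists_chord hK₀ hxy
      exact ⟨b, hb, b', hb', x, hx, y, hy, hbb, rfl, by simp, by simp⟩
  · rw [mix_zero hK₁.1] at hx hy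
    obtain ⟨a, ha, a', ha', haa⟩ := exists_chord hK₁ hxy
    exact ⟨x, hx, y, hy, a, ha, a', ha', rfl, haa, by simp, by simp⟩

/-- The diameters of the dividing sets of the mixtures depend on the parameter in a Lipschitz
way. -/
lemma mix_diam_le {l : ℝ} (hl0 : 0 ≤ l) (hl1 : l ≤ 1) {R : ℝ}
    {K₀ K₁ : Set (EuclideanSpace ℝ (Fin d))} (hK₀ : ConstantWidthOne K₀)
    (hK₁ : ConstantWidthOne K₁) (hR₀ : ∀ x ∈ K₀, ‖x‖ ≤ R) (hR₁ : ∀ x ∈ K₁, ‖x‖ ≤ R) {t s : ℝ}
    (ht0 : 0 ≤ t) (ht1 : t ≤ 1) (hs0 : 0 ≤ s) (hs1 : s ≤ 1) :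
    diam (dividingSet l (mix t K₀ K₁)) ≤ diam (dividingSet l (mix s K₀ K₁)) + 4 * R * |t - s| := by
  have hR : 0 ≤ R := by
    obtain ⟨x, hx⟩ := hK₀.1
    exact (norm_nonneg x).trans (hR₀ x hx)
  -- every dividing point at time t has a close companion at time s
  have comp : ∀ m ∈ dividingSet l (mix t K₀ K₁), ∃ m' ∈ dividingSet l (mix s K₀ K₁),
      dist m m' ≤ 2 * R * |t - s| := by
    rintro _ ⟨x, hx, y, hy, hxy, rfl⟩
    obtain ⟨b, hb, b', hb', a, ha, a', ha', hbb, haa, rfl, rfl⟩ :=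
      mix_chord ht0 ht1 hK₀ hK₁ hx hy hxy
    refine ⟨(1 - l) • ((1 - s) • b + s • a) + l • ((1 - s) • b' + s • a'),
      ⟨_, mem_mix.2 ⟨b, hb, a, ha, rfl⟩, _, mem_mix.2 ⟨b', hb', a', ha', rfl⟩, ?_, rfl⟩, ?_⟩
    · rw [dist_eq_norm] at hxy ⊢
      have e : ((1 - s) • b + s • a) - ((1 - s) • b' + s • a') =
        (1 - s) • (b - b') + s • (a - a') := by module
      rw [e, hbb, haa]
      have e2 : (1 - s) • (((1 - t) • b + t • a) - ((1 - t) • b' + t • a')) +
        s • (((1 - t) • b + t • a) - ((1 - t) • b' + t • a')) =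
        ((1 - t) • b + t • a) - ((1 - t) • b' + t • a') := by module
      rw [e2]; exact hxy
    · have e : ((1 - l) • ((1 - t) • b + t • a) + l • ((1 - t) • b' + t • a')) -
          ((1 - l) • ((1 - s) • b + s • a) + l • ((1 - s) • b' + s • a')) =
          (t - s) • (((1 - l) • a + l • a') - ((1 - l) • b + l • b')) := by module
      rw [dist_eq_norm, e, norm_smul, Real.norm_eq_abs, mul_comm]
      apply mul_le_mul_of_nonneg_right _ (abs_nonneg _)
      refine (norm_sub_le _ _).trans ?_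
      have q1 : ‖(1 - l) • a + l • a'‖ ≤ R := hR₁ _ (hK₁.2.2.1 ha ha' (by linarith) hl0 (by ring))
      have q2 : ‖(1 - l) • b + l • b'‖ ≤ R := hR₀ _ (hK₀.2.2.1 hb hb' (by linarith) hl0 (by ring))
      linarith
  have hbd : Bornology.IsBounded (dividingSet l (mix s K₀ K₁)) :=
    (isCompact_dividingSet l (mix_constantWidth hs0 hs1 hK₀ hK₁).2.1).isBounded
  apply diam_le_of_forall_dist_le
  · have := diam_nonneg (s := dividingSet l (mix s K₀ K₁))
    positivity
  · intro p hp q hq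
    obtain ⟨p', hp', hpp⟩ := comp p hp
    obtain ⟨q', hq', hqq⟩ := comp q hq
    have h := dist_le_diam_of_mem hbd hp' hq'
    have h4 := dist_triangle4 p p' q' q
    rw [dist_comm q' q] at h4
    linarith

/-- Every value between those of two bodies is attained. -/
lemma intermediate {l : ℝ} (hl0 : 0 ≤ l) (hl1 : l ≤ 1)
    {K₀ K₁ : Set (EuclideanSpace ℝ (Fin d))} (hK₀ : ConstantWidthOne K₀)
    (hK₁ : ConstantWidthOne K₁) {r : ℝ} (hr0 : diam (dividingSet l K₀) ≤ r)
    (hr1 : r ≤ diam (dividingSet l K₁)) :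
    ∃ K : Set (EuclideanSpace ℝ (Fin d)), ConstantWidthOne K ∧ r = diam (dividingSet l K) := by
  obtain ⟨R₀, hR₀⟩ := hK₀.2.1.isBounded.exists_norm_le
  obtain ⟨R₁, hR₁⟩ := hK₁.2.1.isBounded.exists_norm_le
  set R := max R₀ R₁ with hRdef
  have hR₀' : ∀ x ∈ K₀, ‖x‖ ≤ R := fun x hx => (hR₀ x hx).trans (le_max_left _ _)
  have hR₁' : ∀ x ∈ K₁, ‖x‖ ≤ R := fun x hx => (hR₁ x hx).trans (le_max_right _ _)
  have hR : 0 ≤ R := by
    obtain ⟨x, hx⟩ := hK₀.1
    exact (norm_nonneg x).trans (hR₀' x hx)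
  have hcont : ContinuousOn (fun t : ℝ => diam (dividingSet l (mix t K₀ K₁))) (Icc 0 1) := by
    have hlip : LipschitzOnWith (Real.toNNReal (4 * R))
        (fun t : ℝ => diam (dividingSet l (mix t K₀ K₁))) (Icc 0 1) := by
      apply LipschitzOnWith.of_dist_le_mul
      intro t ht s hs
      rw [Real.coe_toNNReal _ (by positivity), Real.dist_eq, Real.dist_eq, abs_le]
      have a1 := mix_diam_le hl0 hl1 hK₀ hK₁ hR₀' hR₁' ht.1 ht.2 hs.1 hs.2
      have a2 := mix_diam_le hl0 hl1 hK₀ hK₁ hR₀' hR₁' hs.1 hs.2 ht.1 ht.2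
      rw [abs_sub_comm s t] at a2
      constructor <;> linarith
    exact hlip.continuousOn
  have himg := intermediate_value_Icc (zero_le_one) hcont
  simp only [mix_zero hK₁.1, mix_one hK₀.1] at himg
  obtain ⟨t, ht, hrt⟩ := himg ⟨hr0, hr1⟩
  exact ⟨mix t K₀ K₁, mix_constantWidth ht.1 ht.2 hK₀ hK₁, hrt.symm⟩

end mixtures

/-! ### The minimum -/

section minimum

open scoped Pointwise

variable {d : ℕ}

/-- For `l ≤ 1 / 2` the dividing set of `H + l B` lies in `H`. -/
lemma dividingSet_add_ball {l : ℝ} (h0 : 0 ≤ l)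
    {H : Set (EuclideanSpace ℝ (Fin d))} (hH : ∀ x ∈ H, ∀ y ∈ H, dist x y ≤ 1 - 2 * l)
    {m : EuclideanSpace ℝ (Fin d)} (hm : m ∈ dividingSet l (H + closedBall (0 : EuclideanSpace ℝ (Fin d)) l)) : m ∈ H := by
  obtain ⟨x, hx, y, hy, hxy, rfl⟩ := hm
  obtain ⟨h, hh, b, hb, rfl⟩ := Set.mem_add.1 hx
  obtain ⟨h', hh', b', hb', rfl⟩ := Set.mem_add.1 hy
  rw [mem_closedBall, dist_zero_right] at hb hb'
  rw [dist_eq_norm] at hxy
  set u := (h + b) - (h' + b') with hu
  have huu : inner ℝ u u = (1 : ℝ) := by rw [real_inner_self_eq_norm_sq, hxy]; norm_num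
  have e : u = (h - h') + b - b' := by rw [hu]; abel
  have h5 : inner ℝ u ((h - h') + b - b') = (1 : ℝ) := by rw [← e]; exact huu
  rw [inner_sub_right, inner_add_right] at h5
  have i1 := real_inner_le_norm u (h - h')
  have i2 := real_inner_le_norm u b
  have i3 := abs_real_inner_le_norm u b'
  have n1 := hH h hh h' hh'
  rw [dist_eq_norm] at n1
  rw [hxy, one_mul] at i1 i2 i3
  have i4 := (abs_le.1 i3).1
  -- b = l u
  have hbu : b = l • u := by
    have hib : l ≤ inner ℝ u b := by linarith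
    have hsq : ‖b - l • u‖ ^ 2 = ‖b‖ ^ 2 - 2 * (l * inner ℝ u b) + l ^ 2 := by
      rw [norm_sub_sq_real, real_inner_smul_right, real_inner_comm, norm_smul, hxy, mul_one,
        Real.norm_eq_abs, sq_abs]
    have : ‖b - l • u‖ ^ 2 ≤ 0 := by
      rw [hsq]
      nlinarith [norm_nonneg b]
    have h0' : ‖b - l • u‖ = 0 :=
      pow_eq_zero_iff two_ne_zero |>.1 (le_antisymm this (sq_nonneg _))
    exact sub_eq_zero.1 (norm_eq_zero.1 h0')
  have key : (1 - l) • (h + b) + l • (h' + b') = h := by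
    have e1 : (1 - l) • (h + b) + l • (h' + b') = (h + b) - l • ((h + b) - (h' + b')) := by module
    rw [e1, ← hu, ← hbu]; abel
  rw [key]; exact hh

/-- The minimum `1 - 2 l` is attained only by sums with the ball of radius `l`. -/
lemma summand {l : ℝ} (hd : 1 ≤ d) (h0 : 0 ≤ l)
    {K : Set (EuclideanSpace ℝ (Fin d))} (hK : ConstantWidthOne K)
    (hdiam : diam (dividingSet l K) ≤ 1 - 2 * l) :
    ∃ H : Set (EuclideanSpace ℝ (Fin d)), H.Nonempty ∧ IsCompact H ∧ Convex ℝ H ∧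
      (∀ x ∈ H, ∀ y ∈ H, dist x y ≤ 1 - 2 * l) ∧ K = H + closedBall (0 : EuclideanSpace ℝ (Fin d)) l := by
  set M := dividingSet l K with hM
  have hMc : IsCompact M := isCompact_dividingSet l hK.2.1
  have hMn : M.Nonempty := dividingSet_nonempty hd l hK
  set H := closure (convexHull ℝ M) with hH
  have hsub : M ⊆ H := (subset_convexHull ℝ M).trans subset_closure
  have hbd : Bornology.IsBounded (convexHull ℝ M) := isBounded_convexHull.2 hMc.isBounded
  have hHb : Bornology.IsBounded H := hbd.closure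
  have hHd : ∀ x ∈ H, ∀ y ∈ H, dist x y ≤ 1 - 2 * l := by
    intro x hx y hy
    refine (dist_le_diam_of_mem hHb hx hy).trans ?_
    rw [hH, diam_closure, convexHull_diam]
    exact hdiam
  have hHc : IsCompact H := isCompact_of_isClosed_isBounded isClosed_closure hHb
  have hHv : Convex ℝ H := (convex_convexHull ℝ M).closure
  refine ⟨H, hMn.mono hsub, hHc, hHv, hHd, ?_⟩
  -- the sum is closed and convex, with diameter at most one, and contains K
  have hLc : IsCompact (H + closedBall (0 : EuclideanSpace ℝ (Fin d)) l) := hHc.add (isCompact_closedBall _ _)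
  have hLv : Convex ℝ (H + closedBall (0 : EuclideanSpace ℝ (Fin d)) l) := hHv.add (convex_closedBall _ _)
  have hLne : (H + closedBall (0 : EuclideanSpace ℝ (Fin d)) l).Nonempty :=
    (hMn.mono hsub).add ⟨0, by simp [h0]⟩
  symm
  apply complete hK
  · intro z hz
    by_contra hzL
    obtain ⟨u, hu, hsep⟩ := separate hLne hLc.isClosed hLv hzL
    obtain ⟨x, hx, y, hy, hxy⟩ := exists_chord hK hu
    have hm : (1 - l) • x + l • y ∈ M := ⟨x, hx, y, hy, by rw [dist_eq_norm, hxy, hu], rfl⟩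
    have hxL : x ∈ H + closedBall (0 : EuclideanSpace ℝ (Fin d)) l := by
      refine Set.mem_add.2 ⟨(1 - l) • x + l • y, hsub hm, l • u, ?_, ?_⟩
      · rw [mem_closedBall, dist_zero_right, norm_smul, hu, mul_one, Real.norm_of_nonneg h0]
      · rw [← hxy]; module
    have h1 := hsep x hxL
    have h2 : inner ℝ u x - inner ℝ u y = (1 : ℝ) := by
      rw [← inner_sub_right, hxy, real_inner_self_eq_norm_sq, hu]; norm_num
    have h3 := real_inner_le_norm u (z - y)
    have h4 := dist_le_one hK hz hy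
    rw [dist_eq_norm] at h4
    rw [hu, one_mul, inner_sub_right] at h3
    linarith
  · intro x hx y hy
    obtain ⟨h, hh, b, hb, rfl⟩ := Set.mem_add.1 hx
    obtain ⟨h', hh', b', hb', rfl⟩ := Set.mem_add.1 hy
    rw [mem_closedBall, dist_zero_right] at hb hb'
    have n1 := hHd h hh h' hh'
    rw [dist_eq_norm] at n1 ⊢
    have e : (h + b) - (h' + b') = (h - h') + (b - b') := by abel
    rw [e]
    have := norm_add_le (h - h') (b - b')
    have := norm_sub_le b b'
    linarith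

end minimum

/-! ### The theorem -/

/-- `K` is the intersection of the three balls of radius one centred at the vertices of a regular
triangle of side one (in the plane: `K` is a Reuleaux triangle of width one). -/
def IsReuleaux {d : ℕ} (K : Set (EuclideanSpace ℝ (Fin d))) : Prop :=
  ∃ a b c : EuclideanSpace ℝ (Fin d), dist a b = 1 ∧ dist b c = 1 ∧ dist a c = 1 ∧
    K = closedBall a 1 ∩ closedBall b 1 ∩ closedBall c 1

/-- `K` contains the vertices of a regular tetrahedron of edge length one. -/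
def ContainsTetrahedron {d : ℕ} (K : Set (EuclideanSpace ℝ (Fin d))) : Prop :=
  ∃ a ∈ K, ∃ b ∈ K, ∃ c ∈ K, ∃ e ∈ K, dist a b = 1 ∧ dist a c = 1 ∧ dist a e = 1 ∧
    dist b c = 1 ∧ dist b e = 1 ∧ dist c e = 1

section final

variable {d : ℕ}

lemma upper_all {l : ℝ} (h0 : 0 ≤ l) (h1 : l ≤ 1) {X : Set (EuclideanSpace ℝ (Fin d))}
    (hX : ∀ x ∈ X, ∀ y ∈ X, dist x y ≤ 1) {p q : EuclideanSpace ℝ (Fin d)}
    (hp : p ∈ dividingSet l X) (hq : q ∈ dividingSet l X) : dist p q ≤ maxDiam d l := by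
  unfold maxDiam
  split_ifs with hd
  · subst hd
    rcases le_total l (1 / 2) with hl | hl
    · exact (upper_plane_half h0 hl hX hp hq).trans (le_max_right _ _)
    · rw [← dividingSet_symm] at hp hq
      have := upper_plane_half (l := 1 - l) (by linarith) (by linarith) hX hp hq
      refine this.trans ?_
      rw [sub_sub_cancel]; exact le_max_left _ _
  · exact upper_general h0 h1 hX hp hq

lemma equality_all {l : ℝ} (h0 : 0 < l) (h1 : l < 1) {K : Set (EuclideanSpace ℝ (Fin d))}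
    (hK : ConstantWidthOne K) {p q : EuclideanSpace ℝ (Fin d)}
    (hp : p ∈ dividingSet l K) (hq : q ∈ dividingSet l K) (hpq : dist p q = maxDiam d l) :
    if d = 2 then IsReuleaux K else ContainsTetrahedron K := by
  have hX : ∀ x ∈ K, ∀ y ∈ K, dist x y ≤ 1 := fun x hx y hy => dist_le_one hK hx hy
  unfold maxDiam at hpq
  split_ifs with hd
  · subst hd
    rw [if_pos rfl] at hpq
    have htri : ∃ a ∈ K, ∃ b ∈ K, ∃ c ∈ K, dist a b = 1 ∧ dist b c = 1 ∧ dist a c = 1 := by
      rcases le_total l (1 / 2) with hl | hl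
      · rw [max_eq_right (by linarith)] at hpq
        exact equality_plane_half h0 hl hX hp hq hpq
      · rw [max_eq_left (by linarith)] at hpq
        rw [← dividingSet_symm] at hp hq
        exact equality_plane_half (l := 1 - l) (by linarith) (by linarith) hX hp hq
          (by rw [hpq]; ring)
    obtain ⟨a, ha, b, hb, c, hc, hab, hbc, hac⟩ := htri
    exact ⟨a, b, c, hab, hbc, hac, reuleaux hK ha hb hc hab hbc hac⟩
  · rw [if_neg hd] at hpq
    exact equality_general h0 h1 hX hp hq hpq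

/-- Two segments with a common endpoint. -/
lemma achieve_plane {l : ℝ} (h0 : 0 ≤ l) (h1 : l ≤ 1) {K : Set (EuclideanSpace ℝ (Fin d))}
    (hK : ConstantWidthOne K) {a b c : EuclideanSpace ℝ (Fin d)} (ha : a ∈ K) (hb : b ∈ K)
    (hc : c ∈ K) (hab : dist a b = 1) (hbc : dist b c = 1) (hac : dist a c = 1) :
    max l (1 - l) ≤ diam (dividingSet l K) := by
  have hbd := (isCompact_dividingSet l hK.2.1).isBounded
  apply max_le
  · have := dist_le_diam_of_mem hbd (show (1 - l) • a + l • b ∈ dividingSet l K from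
      ⟨a, ha, b, hb, hab, rfl⟩) (show (1 - l) • a + l • c ∈ dividingSet l K from
      ⟨a, ha, c, hc, hac, rfl⟩)
    have e : ((1 - l) • a + l • b) - ((1 - l) • a + l • c) = l • (b - c) := by module
    rw [dist_eq_norm, e, norm_smul, ← dist_eq_norm b c, hbc, mul_one, Real.norm_of_nonneg h0]
      at this
    exact this
  · have := dist_le_diam_of_mem hbd (show (1 - l) • b + l • a ∈ dividingSet l K from
      ⟨b, hb, a, ha, by rw [dist_comm]; exact hab, rfl⟩)
      (show (1 - l) • c + l • a ∈ dividingSet l K from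
      ⟨c, hc, a, ha, by rw [dist_comm]; exact hac, rfl⟩)
    have e : ((1 - l) • b + l • a) - ((1 - l) • c + l • a) = (1 - l) • (b - c) := by module
    rw [dist_eq_norm, e, norm_smul, ← dist_eq_norm b c, hbc, mul_one,
      Real.norm_of_nonneg (by linarith)] at this
    exact this

/-- Two opposite edges of a regular tetrahedron. -/
lemma achieve_general {l : ℝ} {K : Set (EuclideanSpace ℝ (Fin d))}
    (hK : ConstantWidthOne K) (h : ContainsTetrahedron K) :
    Real.sqrt (l ^ 2 + (1 - l) ^ 2) ≤ diam (dividingSet l K) := by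
  obtain ⟨a, ha, b, hb, c, hc, e, he, hab, hac, hae, hbc, hbe, hce⟩ := h
  have hbd := (isCompact_dividingSet l hK.2.1).isBounded
  have := dist_le_diam_of_mem hbd (show (1 - l) • a + l • b ∈ dividingSet l K from
      ⟨a, ha, b, hb, hab, rfl⟩) (show (1 - l) • c + l • e ∈ dividingSet l K from
      ⟨c, hc, e, he, hce, rfl⟩)
  refine le_trans ?_ this
  apply Real.sqrt_le_iff.2 ⟨dist_nonneg, ?_⟩
  rw [dist_eq_norm, dividing_identity]
  rw [dist_eq_norm] at *
  rw [hab, hac, hae, hbc, hbe, hce]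
  apply le_of_eq
  ring

lemma achieve_all {l : ℝ} (h0 : 0 ≤ l) (h1 : l ≤ 1) {K : Set (EuclideanSpace ℝ (Fin d))}
    (hK : ConstantWidthOne K) (h : if d = 2 then IsReuleaux K else ContainsTetrahedron K) :
    maxDiam d l ≤ diam (dividingSet l K) := by
  unfold maxDiam
  split_ifs with hd
  · rw [if_pos hd] at h
    obtain ⟨a, b, c, hab, hbc, hac, rfl⟩ := h
    have e1 : dist b a = 1 := by rw [dist_comm]; exact hab
    have e2 : dist c b = 1 := by rw [dist_comm]; exact hbc
    have e3 : dist c a = 1 := by rw [dist_comm]; exact hac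
    apply achieve_plane h0 h1 hK _ _ _ hab hbc hac
    · exact ⟨⟨by simp, hab.le⟩, hac.le⟩
    · exact ⟨⟨e1.le, by simp⟩, hbc.le⟩
    · exact ⟨⟨e3.le, e2.le⟩, by simp⟩
  · rw [if_neg hd] at h
    exact achieve_general hK h

lemma exists_extremal (hd : 2 ≤ d) : ∃ K : Set (EuclideanSpace ℝ (Fin d)),
    ConstantWidthOne K ∧ (if d = 2 then IsReuleaux K else ContainsTetrahedron K) := by
  obtain ⟨⟨K, hK, hs⟩, -⟩ := MidpointDiameter.result d hd
  have hmid : midpointSet K = dividingSet (1 / 2) K := by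
    ext m
    constructor
    · rintro ⟨x, hx, y, hy, hxy, rfl⟩
      exact ⟨x, hx, y, hy, hxy, by module⟩
    · rintro ⟨x, hx, y, hy, hxy, rfl⟩
      exact ⟨x, hx, y, hy, hxy, by module⟩
  rw [hmid] at hs
  obtain ⟨p, hp, q, hq, hpq⟩ := exists_dist_eq_diam (by omega) (1 / 2) hK
  refine ⟨K, hK, equality_all (by norm_num) (by norm_num) hK hp hq ?_⟩
  rw [hpq, ← hs]
  unfold maxDiam
  split_ifs with hd2
  · norm_num
  · have : ((1 / 2 : ℝ) ^ 2 + (1 - 1 / 2) ^ 2) = 2 / 4 := by norm_num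
    rw [this, Real.sqrt_div (by norm_num), show (4 : ℝ) = 2 ^ 2 by norm_num,
      Real.sqrt_sq (by norm_num)]

/-- The ball of radius one half. -/
lemma ball_constantWidth : ConstantWidthOne (closedBall (0 : EuclideanSpace ℝ (Fin d)) (1 / 2))
    := by
  apply constantWidth_of
  · exact ⟨0, by simp⟩
  · exact isCompact_closedBall _ _
  · exact convex_closedBall _ _
  · intro x hx y hy
    rw [mem_closedBall, dist_zero_right] at hx hy
    rw [dist_eq_norm]
    have := norm_sub_le x y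
    linarith
  · intro u hu
    refine ⟨(1 / 2 : ℝ) • u, ?_, (-(1 / 2) : ℝ) • u, ?_, by module⟩
    · rw [mem_closedBall, dist_zero_right, norm_smul, hu]; norm_num
    · rw [mem_closedBall, dist_zero_right, norm_smul, hu]; norm_num

lemma ball_diam {l : ℝ} :
    diam (dividingSet l (closedBall (0 : EuclideanSpace ℝ (Fin d)) (1 / 2))) ≤ |1 - 2 * l| := by
  have key : ∀ m ∈ dividingSet l (closedBall (0 : EuclideanSpace ℝ (Fin d)) (1 / 2)),
      ‖m‖ ≤ |1 - 2 * l| / 2 := by
    rintro _ ⟨x, hx, y, hy, hxy, rfl⟩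
    rw [mem_closedBall, dist_zero_right] at hx hy
    rw [dist_eq_norm] at hxy
    have hp := parallelogram_law_with_norm ℝ x y
    rw [hxy] at hp
    have h0 : ‖x + y‖ * ‖x + y‖ ≤ 0 := by nlinarith [norm_nonneg x, norm_nonneg y]
    have h1 : ‖x + y‖ = 0 := by nlinarith [norm_nonneg (x + y)]
    have h2 : y = -x := by
      have := norm_eq_zero.1 h1
      exact (neg_eq_of_add_eq_zero_right this).symm
    have e : (1 - l) • x + l • y = (1 - 2 * l) • x := by rw [h2]; module
    rw [e, norm_smul, Real.norm_eq_abs]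
    have := mul_le_mul_of_nonneg_left hx (abs_nonneg (1 - 2 * l))
    linarith
  apply diam_le_of_forall_dist_le (abs_nonneg _)
  intro p hp q hq
  have h1 := key p hp
  have h2 := key q hq
  rw [dist_eq_norm]
  have := norm_sub_le p q
  linarith

end final

open scoped Pointwise

/-- Let `d ≥ 2` and `0 ≤ lam ≤ 1`, and divide every diametral chord of a body `K` of constant
width one in the ratio `lam : 1 - lam`.  The values taken by the diameter of the set of the
dividing points fill exactly the interval from `|1 - 2 lam|` to `maxDiam d lam`; the upper bound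
holds for all sets of diameter at most one; for `0 < lam < 1` the maximum is attained exactly by
the Reuleaux triangles (in the plane) and by the bodies which contain a regular tetrahedron of
edge one (in dimension at least three); and the minimum is attained exactly by the sums of a
convex body of diameter at most `|1 - 2 lam|` and a ball of radius `min lam (1 - lam)`. -/
theorem result : ∀ d : ℕ, 2 ≤ d → ∀ lam : ℝ, 0 ≤ lam → lam ≤ 1 →
    {r : ℝ | ∃ K : Set (EuclideanSpace ℝ (Fin d)), ConstantWidthOne K ∧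
      r = diam (dividingSet lam K)} = Icc |1 - 2 * lam| (maxDiam d lam) ∧
    (∀ X : Set (EuclideanSpace ℝ (Fin d)), (∀ x ∈ X, ∀ y ∈ X, dist x y ≤ 1) →
      diam (dividingSet lam X) ≤ maxDiam d lam) ∧
    (0 < lam → lam < 1 → ∀ K : Set (EuclideanSpace ℝ (Fin d)), ConstantWidthOne K →
      (diam (dividingSet lam K) = maxDiam d lam ↔
        if d = 2 then IsReuleaux K else ContainsTetrahedron K)) ∧
    (∀ K : Set (EuclideanSpace ℝ (Fin d)), ConstantWidthOne K →
      (diam (dividingSet lam K) = |1 - 2 * lam| ↔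
        ∃ H : Set (EuclideanSpace ℝ (Fin d)), H.Nonempty ∧ IsCompact H ∧ Convex ℝ H ∧
          (∀ x ∈ H, ∀ y ∈ H, dist x y ≤ |1 - 2 * lam|) ∧
          K = H + closedBall (0 : EuclideanSpace ℝ (Fin d)) (min lam (1 - lam)))) := by
  intro d hd lam h0 h1
  have hmax0 : 0 ≤ maxDiam d lam := by
    unfold maxDiam
    split_ifs
    · exact le_max_of_le_left h0
    · positivity
  have hup : ∀ X : Set (EuclideanSpace ℝ (Fin d)), (∀ x ∈ X, ∀ y ∈ X, dist x y ≤ 1) →
      diam (dividingSet lam X) ≤ maxDiam d lam := fun X hX =>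
    diam_le_of_forall_dist_le hmax0 fun p hp q hq => upper_all h0 h1 hX hp hq
  refine ⟨?_, hup, ?_, ?_⟩
  · ext r
    constructor
    · rintro ⟨K, hK, rfl⟩
      exact ⟨lower_bound (by omega) hK, hup K fun x hx y hy => dist_le_one hK hx hy⟩
    · rintro ⟨hr0, hr1⟩
      obtain ⟨K₁, hK₁, hext⟩ := exists_extremal hd
      exact intermediate h0 h1 ball_constantWidth hK₁ (ball_diam.trans hr0)
        (hr1.trans (achieve_all h0 h1 hK₁ hext))
  · intro hl0 hl1 K hK
    constructor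
    · intro hdiam
      obtain ⟨p, hp, q, hq, hpq⟩ := exists_dist_eq_diam (by omega) lam hK
      exact equality_all hl0 hl1 hK hp hq (hpq.trans hdiam)
    · intro hext
      exact le_antisymm (hup K fun x hx y hy => dist_le_one hK hx hy) (achieve_all h0 h1 hK hext)
  · intro K hK
    constructor
    · intro hdiam
      rcases le_total lam (1 / 2) with hl | hl
      · rw [abs_of_nonneg (by linarith)] at hdiam ⊢
        rw [min_eq_left (by linarith)]
        exact summand (by omega) h0 hK hdiam.le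
      · rw [abs_of_nonpos (by linarith)] at hdiam ⊢
        rw [min_eq_right (by linarith)]
        rw [← dividingSet_symm] at hdiam
        obtain ⟨H, a1, a2, a3, a4, a5⟩ := summand (l := 1 - lam) (by omega) (by linarith) hK
          (by rw [hdiam]; linarith)
        exact ⟨H, a1, a2, a3, fun x hx y hy => by have := a4 x hx y hy; linarith, a5⟩
    · rintro ⟨H, a1, a2, a3, a4, a5⟩
      refine le_antisymm ?_ (lower_bound (by omega) hK)
      apply diam_le_of_forall_dist_le (abs_nonneg _)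
      intro p hp q hq
      rcases le_total lam (1 / 2) with hl | hl
      · rw [abs_of_nonneg (by linarith)] at a4 ⊢
        rw [min_eq_left (by linarith)] at a5
        rw [a5] at hp hq
        exact a4 p (dividingSet_add_ball h0 a4 hp) q (dividingSet_add_ball h0 a4 hq)
      · rw [abs_of_nonpos (by linarith)] at a4 ⊢
        rw [min_eq_right (by linarith)] at a5
        rw [a5, ← dividingSet_symm] at hp hq
        have a4' : ∀ x ∈ H, ∀ y ∈ H, dist x y ≤ 1 - 2 * (1 - lam) := by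
          intro x hx y hy
          have := a4 x hx y hy
          linarith
        have := a4' p (dividingSet_add_ball (by linarith) a4' hp) q
          (dividingSet_add_ball (by linarith) a4' hq)
        linarith

end Pool.Agent.Results.MP_04ec84_gt.DividingPoints
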